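import Mathlib

open Finset

namespace Pool.Agent.Results.MP_0634a4_nt.Ten

/-- the `l`-sequence. -/
def u (l : ℤ) : ℕ → ℤ
  | 0 => 0
  | 1 => 1
  | m + 2 => l * u l (m + 1) - u l m

/-- the quotient `T_{n,k}`. -/
def T (l : ℤ) (n k : ℕ) : ℚ :=
  (∑ i ∈ Icc 1 n, (u l i : ℚ) ^ (3 * (4 * k - 3))) / ∑ i ∈ Icc 1 n, (u l i : ℚ) ^ 3

theorem result : (T 2 10 5).den = 11 ∧ ¬ ∀ n k : ℕ, 1 ≤ n → 1 ≤ k → ∃ z : ℤ, T 2 n k = z := by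
  have h : (T 2 10 5).den = 11 := by decide +kernel
  refine ⟨h, fun H => ?_⟩
  obtain ⟨z, hz⟩ := H 10 5 (by norm_num) (by norm_num)
  rw [hz] at h
  simp at h

end Pool.Agent.Results.MP_0634a4_nt.Ten
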